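import Mathlib

set_option autoImplicit false
set_option maxSynthPendingDepth 3

namespace Pool.Agent.Helper36.DiscreteL1

open MeasureTheory Finset
open scoped ENNReal

variable {𝕂 : Type} [RCLike 𝕂]

/-- Integration over a fixed measurable set as a continuous functional on `L¹`. -/
noncomputable def intOn {T : Type*} [MeasurableSpace T] (ν : Measure T) (B : Set T) :
    Lp 𝕂 1 ν →L[𝕂] 𝕂 :=
  LinearMap.mkContinuous
    { toFun := fun h => ∫ t in B, h t ∂ν
      map_add' := by
        intro f g
        have hf : Integrable f ν := L1.integrable_coeFn f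
        have hg : Integrable g ν := L1.integrable_coeFn g
        rw [← integral_add hf.integrableOn hg.integrableOn]
        refine integral_congr_ae ?_
        exact ae_restrict_of_ae (Lp.coeFn_add f g)
      map_smul' := by
        intro c f
        simp only [RingHom.id_apply, smul_eq_mul]
        rw [← integral_const_mul]
        refine integral_congr_ae ?_
        exact ae_restrict_of_ae (Lp.coeFn_smul c f) } 1
    (by
      intro f
      have hf : Integrable f ν := L1.integrable_coeFn f
      simp only [LinearMap.coe_mk, AddHom.coe_mk, one_mul]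
      refine (norm_integral_le_integral_norm _).trans ?_
      rw [L1.norm_eq_integral_norm]
      exact setIntegral_le_integral hf.norm (ae_of_all _ fun t => norm_nonneg _))

lemma intOn_apply {T : Type*} [MeasurableSpace T] (ν : Measure T) (B : Set T) (h : Lp 𝕂 1 ν) :
    intOn ν B h = ∫ t in B, h t ∂ν := rfl

/-- simultaneous discretisation of finitely many elements of `L¹`. -/
lemma discretize_L1 {T : Type*} [MeasurableSpace T] (ν : Measure T) (r : ℕ)
    (g : Fin r → Lp 𝕂 1 ν) (ε : ℝ) (hε : 0 < ε) :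
    ∃ (κ : Type) (_ : Fintype κ) (P : κ → (Lp 𝕂 1 ν →L[𝕂] 𝕂)) (u : κ → Lp 𝕂 1 ν),
      (∀ j, ‖u j‖ ≤ 1) ∧ (∀ h : Lp 𝕂 1 ν, ∑ j, ‖P j h‖ ≤ ‖h‖) ∧
      ∀ l, ‖g l - ∑ j, P j (g l) • u j‖ ≤ ε := by
  classical
  -- joint approximation
  have hG : MemLp (fun t => fun l => g l t) 1 ν := by
    rw [memLp_pi_iff]
    intro l
    exact Lp.memLp (g l)
  obtain ⟨ψ, hψ, hψmem⟩ := hG.exists_simpleFunc_eLpNorm_sub_lt ENNReal.one_ne_top
    (ε := ENNReal.ofReal (ε / 2)) (by simp; exact hε)
  -- coordinates
  have hψint : Integrable ψ ν := memLp_one_iff_integrable.mp hψmem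
  have hψl : ∀ l, MemLp (fun t => ψ t l) 1 ν := fun l => (memLp_pi_iff.mp hψmem) l
  let s : Fin r → Lp 𝕂 1 ν := fun l => (hψl l).toLp (fun t => ψ t l)
  have hs : ∀ l, ‖g l - s l‖ ≤ ε / 2 := by
    intro l
    rw [Lp.norm_def]
    have h1 : eLpNorm (⇑(g l - s l)) 1 ν ≤ eLpNorm ((fun t => fun l => g l t) - ⇑ψ) 1 ν := by
      refine eLpNorm_mono_ae ?_
      filter_upwards [Lp.coeFn_sub (g l) (s l), (hψl l).coeFn_toLp] with t h1 h2
      rw [h1]
      simp only [Pi.sub_apply]
      change ‖(g l) t - ((hψl l).toLp (fun t => ψ t l)) t‖ ≤ _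
      rw [h2]
      have := norm_le_pi_norm ((fun l => g l t) - ψ t) l
      simpa using this
    refine ENNReal.toReal_le_of_le_ofReal (by positivity) (h1.trans hψ.le)
  -- the level sets
  let κ : Type := {c : Fin r → 𝕂 // c ∈ ψ.range ∧ c ≠ 0}
  have instκ : Fintype κ := by
    have : Finite κ := by
      apply Set.Finite.to_subtype (s := {c | c ∈ ψ.range ∧ c ≠ 0})
      exact (ψ.range.finite_toSet).subset (fun c hc => hc.1)
    exact Fintype.ofFinite κ
  have hBmeas : ∀ c : Fin r → 𝕂, MeasurableSet (ψ ⁻¹' {c}) := fun c => ψ.measurableSet_fiber c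
  have hBfin : ∀ j : κ, ν (ψ ⁻¹' {j.1}) ≠ ∞ := by
    intro j
    exact (SimpleFunc.measure_preimage_lt_top_of_integrable ψ hψint j.2.2).ne
  let u : κ → Lp 𝕂 1 ν := fun j =>
    indicatorConstLp 1 (hBmeas j.1) (hBfin j) (((ν (ψ ⁻¹' {j.1})).toReal⁻¹ : ℝ) : 𝕂)
  let P : κ → (Lp 𝕂 1 ν →L[𝕂] 𝕂) := fun j => intOn ν (ψ ⁻¹' {j.1})
  have hu : ∀ j, ‖u j‖ ≤ 1 := by
    intro j
    have := norm_indicatorConstLp_le (p := 1) (hs := hBmeas j.1) (hμs := hBfin j)
      (c := (((ν (ψ ⁻¹' {j.1})).toReal⁻¹ : ℝ) : 𝕂))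
    refine this.trans ?_
    rw [RCLike.norm_ofReal]
    simp only [ENNReal.toReal_one, div_one, Real.rpow_one, measureReal_def]
    rw [abs_of_nonneg (by positivity)]
    by_cases h0 : (ν (ψ ⁻¹' {j.1})).toReal = 0
    · rw [h0]; simp
    · rw [inv_mul_cancel₀ h0]
  have hP : ∀ h : Lp 𝕂 1 ν, ∑ j, ‖P j h‖ ≤ ‖h‖ := by
    intro h
    have hh : Integrable h ν := L1.integrable_coeFn h
    have h1 : ∀ j : κ, ‖P j h‖ ≤ ∫ t, (ψ ⁻¹' {j.1}).indicator (fun t => ‖h t‖) t ∂ν := by
      intro j
      rw [integral_indicator (hBmeas j.1)]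
      exact norm_integral_le_integral_norm _
    refine (Finset.sum_le_sum fun j _ => h1 j).trans ?_
    rw [← integral_finsetSum]
    · rw [L1.norm_eq_integral_norm]
      refine integral_mono_of_nonneg ?_ hh.norm ?_
      · refine ae_of_all _ fun t => ?_
        exact Finset.sum_nonneg fun j _ => Set.indicator_nonneg (fun _ _ => norm_nonneg _) _
      · refine ae_of_all _ fun t => ?_
        beta_reduce
        by_cases hex : ∃ j : κ, ψ t = j.1
        · obtain ⟨j, hj⟩ := hex
          rw [Finset.sum_eq_single j]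
          · exact Set.indicator_le_self' (fun _ _ => norm_nonneg _) t
          · intro k _ hk
            rw [Set.indicator_of_notMem]
            intro hmem
            apply hk
            have : ψ t = k.1 := hmem
            exact Subtype.ext (this.symm.trans hj)
          · intro hn; exact absurd (Finset.mem_univ j) hn
        · rw [Finset.sum_eq_zero]
          · exact norm_nonneg _
          · intro j _
            rw [Set.indicator_of_notMem]
            intro hmem
            exact hex ⟨j, hmem⟩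
    · intro j _
      exact hh.norm.indicator (hBmeas j.1)
  refine ⟨κ, inferInstance, P, u, hu, hP, ?_⟩
  intro l
  -- Q fixes s
  have hQs : ∑ j, P j (s l) • u j = s l := by
    apply Lp.ext
    have hnull : ∀ᵐ t ∂ν, ∀ j : κ, ν (ψ ⁻¹' {j.1}) = 0 → ψ t ≠ j.1 := by
      rw [ae_all_iff]
      intro j
      by_cases h0 : ν (ψ ⁻¹' {j.1}) = 0
      · have : ∀ᵐ t ∂ν, t ∉ ψ ⁻¹' {j.1} := measure_eq_zero_iff_ae_notMem.mp h0
        filter_upwards [this] with t ht _ h
        exact ht h
      · exact ae_of_all _ fun t h => absurd h h0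
    have hcoe : ∀ᵐ t ∂ν, ∀ j : κ, (P j (s l) • u j : Lp 𝕂 1 ν) t
        = P j (s l) • ((ψ ⁻¹' {j.1}).indicator
          (fun _ => (((ν (ψ ⁻¹' {j.1})).toReal⁻¹ : ℝ) : 𝕂)) t) := by
      rw [ae_all_iff]
      intro j
      filter_upwards [Lp.coeFn_smul (P j (s l)) (u j), indicatorConstLp_coeFn (p := 1)
        (hs := hBmeas j.1) (hμs := hBfin j)
        (c := (((ν (ψ ⁻¹' {j.1})).toReal⁻¹ : ℝ) : 𝕂))] with t h1 h2
      rw [h1, Pi.smul_apply]
      congr 1
    have hPs : ∀ j : κ, P j (s l) = ((ν (ψ ⁻¹' {j.1})).toReal : 𝕂) * j.1 l := by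
      intro j
      change ∫ t in (ψ ⁻¹' {j.1}), (s l) t ∂ν = _
      have : ∫ t in (ψ ⁻¹' {j.1}), (s l) t ∂ν = ∫ t in (ψ ⁻¹' {j.1}), j.1 l ∂ν := by
        refine setIntegral_congr_ae (hBmeas j.1) ?_
        filter_upwards [(hψl l).coeFn_toLp] with t ht hmem
        change ((hψl l).toLp (fun t => ψ t l)) t = _
        rw [ht]
        have : ψ t = j.1 := hmem
        rw [this]
      rw [this, setIntegral_const]
      rw [measureReal_def]
      rw [RCLike.real_smul_eq_coe_mul]
    filter_upwards [hnull, hcoe, Lp.coeFn_finsetSum (Finset.univ) (fun j : κ => P j (s l) • u j),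
      (hψl l).coeFn_toLp] with t h1 h2 h3 h4
    rw [h3]
    simp only [Finset.sum_apply]
    change _ = ((hψl l).toLp (fun t => ψ t l)) t
    rw [h4, Finset.sum_congr rfl (fun j _ => h2 j)]
    by_cases hex : ∃ j : κ, ψ t = j.1
    · obtain ⟨j, hj⟩ := hex
      rw [Finset.sum_eq_single j]
      · rw [Set.indicator_of_mem (by exact hj), hPs, hj]
        have hne : (ν (ψ ⁻¹' {j.1})).toReal ≠ 0 := by
          intro h0
          rw [ENNReal.toReal_eq_zero_iff] at h0
          rcases h0 with h0 | h0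
          · exact h1 j h0 hj
          · exact hBfin j h0
        have hne' : (((ν (ψ ⁻¹' {j.1})).toReal : ℝ) : 𝕂) ≠ 0 := by
          exact_mod_cast hne
        rw [smul_eq_mul]
        push_cast
        field_simp
      · intro k _ hk
        rw [Set.indicator_of_notMem, smul_zero]
        intro hmem
        apply hk
        have : ψ t = k.1 := hmem
        exact Subtype.ext (this.symm.trans hj)
      · intro hn; exact absurd (Finset.mem_univ j) hn
    · rw [Finset.sum_eq_zero]
      · have : ψ t = 0 := by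
          by_contra hne
          exact hex ⟨⟨ψ t, SimpleFunc.mem_range_self ψ t, hne⟩, rfl⟩
        rw [this]; simp
      · intro j _
        rw [Set.indicator_of_notMem, smul_zero]
        intro hmem
        exact hex ⟨j, hmem⟩
  have hdec : g l - ∑ j, P j (g l) • u j = (g l - s l) - ∑ j, P j (g l - s l) • u j := by
    have : ∑ j, P j (g l - s l) • u j = ∑ j, P j (g l) • u j - s l := by
      conv_rhs => rw [← hQs]
      rw [← Finset.sum_sub_distrib]
      refine Finset.sum_congr rfl fun j _ => ?_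
      rw [map_sub, sub_smul]
    rw [this]
    abel
  rw [hdec]
  refine (norm_sub_le _ _).trans ?_
  have h2 : ‖∑ j, P j (g l - s l) • u j‖ ≤ ‖g l - s l‖ := by
    refine (norm_sum_le _ _).trans (le_trans (Finset.sum_le_sum fun j _ => ?_) (hP (g l - s l)))
    rw [norm_smul]
    exact mul_le_of_le_one_right (norm_nonneg _) (hu j)
  linarith [hs l]

end Pool.Agent.Helper36.DiscreteL1
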