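import Mathlib

set_option autoImplicit false
set_option maxSynthPendingDepth 3

namespace Pool.Agent.Helper36.DiscreteLinf

open MeasureTheory Finset
open scoped ENNReal

variable {𝕂 : Type} [RCLike 𝕂]

lemma norm_toLp_top_le {T : Type*} [MeasurableSpace T] {μ : Measure T} {h : T → 𝕂}
    (hm : MemLp h ∞ μ) {C : ℝ} (hC : 0 ≤ C) (hb : ∀ᵐ t ∂μ, ‖h t‖ ≤ C) : ‖hm.toLp h‖ ≤ C := by
  rw [Lp.norm_toLp, eLpNorm_exponent_top]
  exact ENNReal.toReal_le_of_le_ofReal hC (eLpNormEssSup_le_of_ae_bound hb)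

lemma norm_Linf_le {T : Type*} [MeasurableSpace T] {μ : Measure T} {h : Lp 𝕂 ∞ μ}
    {C : ℝ} (hC : 0 ≤ C) (hb : ∀ᵐ t ∂μ, ‖h t‖ ≤ C) : ‖h‖ ≤ C := by
  rw [Lp.norm_def, eLpNorm_exponent_top]
  exact ENNReal.toReal_le_of_le_ofReal hC (eLpNormEssSup_le_of_ae_bound hb)

lemma ae_norm_le {T : Type*} [MeasurableSpace T] {μ : Measure T} (h : Lp 𝕂 ∞ μ) :
    ∀ᵐ t ∂μ, ‖h t‖ ≤ ‖h‖ := by
  filter_upwards [ae_le_eLpNormEssSup (f := h) (μ := μ)] with t ht
  rw [Lp.norm_def, eLpNorm_exponent_top]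
  have hfin : eLpNormEssSup (⇑h) μ ≠ ∞ := by
    rw [← eLpNorm_exponent_top]
    exact Lp.eLpNorm_ne_top h
  have := ENNReal.toReal_mono hfin ht
  simpa using this

lemma discretize_Linf {T : Type*} [MeasurableSpace T] (μ : Measure T) (r : ℕ)
    (f : Fin r → Lp 𝕂 ∞ μ) (ρ : ℝ) (hρ : 0 ≤ ρ)
    (hf : ∀ a : Fin r → 𝕂, ‖∑ l, a l • f l‖ ≤ ρ * Real.sqrt (∑ l, ‖a l‖ ^ 2))
    (ε : ℝ) (hε : 0 < ε) :
    ∃ (ι : Type) (_ : Fintype ι) (x : ι → Fin r → 𝕂) (Θ : (ι → 𝕂) →ₗ[𝕂] Lp 𝕂 ∞ μ),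
      (∀ a, (∀ i, ‖a i‖ ≤ 1) → ‖Θ a‖ ≤ 1) ∧ (∀ i, ∑ l, ‖x i l‖ ^ 2 ≤ ρ ^ 2) ∧
      ∀ l, ‖f l - Θ (fun i => x i l)‖ ≤ ε := by
  classical
  let E := EuclideanSpace 𝕂 (Fin r)
  let instM : MeasurableSpace E := borel E
  have instB : BorelSpace E := ⟨rfl⟩
  let φ : T → E := fun t => WithLp.toLp 2 (fun l => f l t)
  have hφm : Measurable φ := by
    have h2 : Measurable (fun t => (fun l => f l t : Fin r → 𝕂)) :=
      measurable_pi_lambda _ (fun l => (Lp.stronglyMeasurable (f l)).measurable)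
    have h3 : Measurable (WithLp.toLp 2 : (Fin r → 𝕂) → E) :=
      (PiLp.continuous_toLp 2 _).measurable
    exact h3.comp h2
  have hφK : ∀ᵐ t ∂μ, φ t ∈ Metric.closedBall (0 : E) ρ := by
    -- countable dense set of coefficients
    let D : ℕ → (Fin r → 𝕂) := TopologicalSpace.denseSeq (Fin r → 𝕂)
    have h1 : ∀ᵐ t ∂μ, ∀ n, ‖∑ l, D n l * f l t‖ ≤ ρ * Real.sqrt (∑ l, ‖D n l‖ ^ 2) := by
      rw [ae_all_iff]
      intro n
      have h2 : ∀ᵐ t ∂μ, ∀ l, (D n l • f l : Lp 𝕂 ∞ μ) t = D n l • f l t := by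
        rw [ae_all_iff]
        intro l
        exact Lp.coeFn_smul _ _
      filter_upwards [ae_norm_le (∑ l, D n l • f l), Lp.coeFn_finsetSum Finset.univ
        (fun l => D n l • f l), h2] with t ht1 ht2 ht3
      rw [ht2] at ht1
      simp only [Finset.sum_apply, ht3, smul_eq_mul] at ht1
      exact ht1.trans (hf (D n))
    filter_upwards [h1] with t ht
    have h3 : ∀ a : Fin r → 𝕂, ‖∑ l, a l * f l t‖ ≤ ρ * Real.sqrt (∑ l, ‖a l‖ ^ 2) := by
      intro a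
      have hcl : IsClosed {a : Fin r → 𝕂 | ‖∑ l, a l * f l t‖ ≤ ρ * Real.sqrt (∑ l, ‖a l‖ ^ 2)} := by
        apply isClosed_le
        · fun_prop
        · fun_prop
      have hd : Dense (Set.range D) := TopologicalSpace.denseRange_denseSeq _
      have hsub : Set.range D ⊆ {a : Fin r → 𝕂 | ‖∑ l, a l * f l t‖ ≤ ρ * Real.sqrt (∑ l, ‖a l‖ ^ 2)} := by
        rintro _ ⟨n, rfl⟩
        exact ht n
      exact hcl.closure_subset_iff.mpr hsub (hd a)
    rw [mem_closedBall_zero_iff]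
    have h4 := h3 (fun l => star (f l t))
    have h5 : ∑ l, star (f l t) * f l t = ((∑ l, ‖f l t‖ ^ 2 : ℝ) : 𝕂) := by
      push_cast
      refine Finset.sum_congr rfl fun l _ => ?_
      exact RCLike.conj_mul _
    rw [h5, RCLike.norm_ofReal, abs_of_nonneg (Finset.sum_nonneg fun l _ => by positivity)] at h4
    simp only [norm_star] at h4
    have h6 : ‖φ t‖ = Real.sqrt (∑ l, ‖f l t‖ ^ 2) := EuclideanSpace.norm_eq _
    have h7 : ∑ l, ‖f l t‖ ^ 2 = ‖φ t‖ ^ 2 := by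
      rw [h6, Real.sq_sqrt (Finset.sum_nonneg fun l _ => by positivity)]
    rw [h7, Real.sqrt_sq (norm_nonneg _)] at h4
    by_contra hcon
    push Not at hcon
    have : 0 < ‖φ t‖ := lt_of_le_of_lt hρ hcon
    nlinarith
  -- finite net in the ball
  let K : Set E := Metric.closedBall (0 : E) ρ
  have instN : Nonempty K := ⟨⟨0, by simp [K, hρ]⟩⟩
  let e : ℕ → E := fun n => (TopologicalSpace.denseSeq K n : E)
  have heK : ∀ n, e n ∈ K := fun n => (TopologicalSpace.denseSeq K n).2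
  have hK : IsCompact K := isCompact_closedBall _ _
  have hcov : K ⊆ ⋃ n, Metric.ball (e n) ε := by
    intro v hv
    have hd := (TopologicalSpace.denseRange_denseSeq K) 
    obtain ⟨n, hn⟩ := Metric.denseRange_iff.mp hd ⟨v, hv⟩ ε hε
    refine Set.mem_iUnion.mpr ⟨n, ?_⟩
    exact hn
  obtain ⟨S, hS⟩ := hK.elim_finite_subcover (fun n => Metric.ball (e n) ε)
    (fun n => Metric.isOpen_ball) hcov
  let N : ℕ := S.sup id
  have hnear : ∀ v ∈ K, dist (SimpleFunc.nearestPt e N v) v ≤ ε := by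
    intro v hv
    have := hS hv
    simp only [Set.mem_iUnion] at this
    obtain ⟨n, hn, hvn⟩ := this
    have hnN : n ≤ N := Finset.le_sup (f := id) hn
    have h1 := SimpleFunc.edist_nearestPt_le e v hnN
    rw [edist_dist, edist_dist, ENNReal.ofReal_le_ofReal_iff dist_nonneg] at h1
    refine h1.trans ?_
    rw [dist_comm]
    exact (Metric.mem_ball.mp hvn).le
  let ind : SimpleFunc T ℕ := (SimpleFunc.nearestPtInd e N).comp φ hφm
  have hind : ∀ t, ind t < N + 1 := fun t => Nat.lt_succ_of_le (SimpleFunc.nearestPtInd_le e N _)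
  let G : (Fin (N + 1) → 𝕂) → SimpleFunc T 𝕂 := fun a =>
    ind.map (fun n => if h : n < N + 1 then a ⟨n, h⟩ else 0)
  have hGapp : ∀ a t, G a t = a ⟨ind t, hind t⟩ := by
    intro a t
    simp only [G, SimpleFunc.map_apply]
    rw [dif_pos (hind t)]
  have hGmem : ∀ a, MemLp (⇑(G a)) ∞ μ := fun a => SimpleFunc.memLp_top _ _
  let Θ : (Fin (N + 1) → 𝕂) →ₗ[𝕂] Lp 𝕂 ∞ μ :=
    { toFun := fun a => (hGmem a).toLp (⇑(G a))
      map_add' := by
        intro a b
        rw [← MemLp.toLp_add]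
        refine (MemLp.toLp_eq_toLp_iff _ _).mpr (ae_of_all _ fun t => ?_)
        simp only [hGapp, Pi.add_apply]
      map_smul' := by
        intro c a
        simp only [RingHom.id_apply]
        rw [← MemLp.toLp_const_smul]
        refine (MemLp.toLp_eq_toLp_iff _ _).mpr (ae_of_all _ fun t => ?_)
        simp only [hGapp, Pi.smul_apply] }
  refine ⟨Fin (N + 1), inferInstance, fun i l => (e i).ofLp l, Θ, ?_, ?_, ?_⟩
  · intro a ha
    refine norm_toLp_top_le (hGmem a) zero_le_one (ae_of_all _ fun t => ?_)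
    rw [hGapp]
    exact ha _
  · intro i
    have h1 : ‖e i‖ ≤ ρ := by
      have := heK i
      rwa [mem_closedBall_zero_iff] at this
    have h2 : ∑ l, ‖(e i).ofLp l‖ ^ 2 = ‖e i‖ ^ 2 := (EuclideanSpace.norm_sq_eq (e i)).symm
    rw [h2]
    gcongr
  · intro l
    refine norm_Linf_le hε.le ?_
    filter_upwards [Lp.coeFn_sub (f l) (Θ (fun i => (e i).ofLp l)),
      (hGmem (fun i => (e i).ofLp l)).coeFn_toLp, hφK] with t h1 h2 h3
    rw [h1, Pi.sub_apply]
    have h4 : (Θ (fun i => (e i).ofLp l)) t = (e (ind t)).ofLp l := by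
      change ((hGmem (fun i => (e i).ofLp l)).toLp _) t = _
      rw [h2]
      exact hGapp (fun i => (e i).ofLp l) t
    rw [h4]
    have h5 := hnear (φ t) h3
    have h6 : SimpleFunc.nearestPt e N (φ t) = e (ind t) := rfl
    rw [h6, dist_comm, dist_eq_norm] at h5
    refine le_trans ?_ h5
    have h7 := PiLp.norm_apply_le (φ t - e (ind t)) l
    exact h7

end Pool.Agent.Helper36.DiscreteLinf
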