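import Mathlib

set_option autoImplicit false
set_option maxSynthPendingDepth 3

/-!
Grothendieck's inequality (with a non-optimal constant) for finite matrices over `ℝ` or `ℂ`,
by Rademacher sums and truncation.
-/

namespace Pool.Agent.Helper36.Grothendieck

open Finset

variable {𝕂 : Type} [RCLike 𝕂]

/-- sign of a Boolean -/
def sgn (b : Bool) : ℝ := if b then 1 else -1

lemma norm_sq_add_sub (x y : 𝕂) : ‖x + y‖ ^ 2 + ‖x - y‖ ^ 2 = 2 * (‖x‖ ^ 2 + ‖y‖ ^ 2) := by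
  have h := parallelogram_law_with_norm 𝕂 x y
  nlinarith [h]

lemma norm_four_add_sub (x y : 𝕂) :
    ‖x + y‖ ^ 4 + ‖x - y‖ ^ 4 ≤ 2 * (‖x‖ ^ 4 + 6 * ‖x‖ ^ 2 * ‖y‖ ^ 2 + ‖y‖ ^ 4) := by
  have h := norm_sq_add_sub x y
  have h1 : ‖x + y‖ ^ 2 ≤ (‖x‖ + ‖y‖) ^ 2 := by
    gcongr; exact norm_add_le x y
  have h2 : ‖x - y‖ ^ 2 ≤ (‖x‖ + ‖y‖) ^ 2 := by
    gcongr; exact norm_sub_le x y
  -- a + b = 2 s, a ≤ s + 2xy, b ≤ s + 2xy so |a - s| ≤ 2xy
  set a := ‖x + y‖ ^ 2 with ha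
  set b := ‖x - y‖ ^ 2 with hb
  have ea : ‖x + y‖ ^ 4 = a ^ 2 := by rw [ha]; ring
  have eb : ‖x - y‖ ^ 4 = b ^ 2 := by rw [hb]; ring
  rw [ea, eb]
  set p := ‖x‖
  set q := ‖y‖
  have hab : a - (p ^ 2 + q ^ 2) = -(b - (p ^ 2 + q ^ 2)) := by linarith
  have k1 : a - (p ^ 2 + q ^ 2) ≤ 2 * p * q := by nlinarith
  have k2 : -(2 * p * q) ≤ a - (p ^ 2 + q ^ 2) := by nlinarith
  have k3 : (a - (p ^ 2 + q ^ 2)) ^ 2 ≤ (2 * p * q) ^ 2 := sq_le_sq' k2 k1
  nlinarith [k3, hab]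

/-- Existence of Rademacher variables on a finite set, with the moment estimates we need. -/
lemma exists_rademacher (m : ℕ) : ∃ (Ω : Type) (_ : Fintype Ω) (_ : Nonempty Ω)
    (r : Fin m → Ω → ℝ),
    ∀ a b : Fin m → 𝕂,
      (∑ ω, (∑ l, (r l ω : 𝕂) * a l) * (∑ l, (r l ω : 𝕂) * b l)
        = (Fintype.card Ω : 𝕂) * ∑ l, a l * b l) ∧
      (∑ ω, ‖∑ l, (r l ω : 𝕂) * a l‖ ^ 2 = (Fintype.card Ω : ℝ) * ∑ l, ‖a l‖ ^ 2) ∧
      (∑ ω, ‖∑ l, (r l ω : 𝕂) * a l‖ ^ 4 ≤ 3 * (Fintype.card Ω : ℝ) * (∑ l, ‖a l‖ ^ 2) ^ 2) := by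
  induction m with
  | zero =>
    refine ⟨Unit, inferInstance, inferInstance, fun l _ => 0, ?_⟩
    intro a b
    simp
  | succ m ih =>
    obtain ⟨Ω, hΩ, hne, r, hr⟩ := ih
    refine ⟨Ω × Bool, inferInstance, inferInstance,
      fun l ω => Fin.lastCases (motive := fun _ => ℝ) (sgn ω.2) (fun i => r i ω.1) l, ?_⟩
    intro a b
    have key : ∀ (c : Fin (m+1) → 𝕂) (ω : Ω × Bool),
        (∑ l, ((Fin.lastCases (motive := fun _ => ℝ) (sgn ω.2) (fun i => r i ω.1) l : ℝ) : 𝕂) * c l)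
          = (∑ l, (r l ω.1 : 𝕂) * c l.castSucc) + (sgn ω.2 : 𝕂) * c (Fin.last m) := by
      intro c ω
      rw [Fin.sum_univ_castSucc]
      simp
    obtain ⟨h1, h2, h3⟩ := hr (fun l => a l.castSucc) (fun l => b l.castSucc)
    have key1 : ∀ (c : Fin (m+1) → 𝕂) (ω : Ω),
        (∑ l, ((Fin.lastCases (motive := fun _ => ℝ) (sgn true) (fun i => r i ω) l : ℝ) : 𝕂) * c l)
          = (∑ l, (r l ω : 𝕂) * c l.castSucc) + c (Fin.last m) := by
      intro c ω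
      have := key c (ω, true)
      simpa [sgn] using this
    have key2 : ∀ (c : Fin (m+1) → 𝕂) (ω : Ω),
        (∑ l, ((Fin.lastCases (motive := fun _ => ℝ) (sgn false) (fun i => r i ω) l : ℝ) : 𝕂) * c l)
          = (∑ l, (r l ω : 𝕂) * c l.castSucc) - c (Fin.last m) := by
      intro c ω
      have := key c (ω, false)
      simpa [sgn, sub_eq_add_neg] using this
    refine ⟨?_, ?_, ?_⟩
    · rw [Fintype.sum_prod_type]
      simp only [Fintype.sum_bool, Fintype.card_prod, Fintype.card_bool, key1, key2]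
      have : ∀ ω : Ω, ((∑ l, (r l ω : 𝕂) * a l.castSucc) + a (Fin.last m)) *
          ((∑ l, (r l ω : 𝕂) * b l.castSucc) + b (Fin.last m)) +
          ((∑ l, (r l ω : 𝕂) * a l.castSucc) - a (Fin.last m)) *
          ((∑ l, (r l ω : 𝕂) * b l.castSucc) - b (Fin.last m))
          = 2 * ((∑ l, (r l ω : 𝕂) * a l.castSucc) * (∑ l, (r l ω : 𝕂) * b l.castSucc))
            + 2 * (a (Fin.last m) * b (Fin.last m)) := by
        intro ω
        ring
      rw [Finset.sum_congr rfl (fun ω _ => this ω), Finset.sum_add_distrib, ← Finset.mul_sum, h1,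
        Fin.sum_univ_castSucc]
      simp
      ring
    · rw [Fintype.sum_prod_type]
      simp only [Fintype.sum_bool, Fintype.card_prod, Fintype.card_bool, key1, key2]
      have : ∀ ω : Ω, ‖(∑ l, (r l ω : 𝕂) * a l.castSucc) + a (Fin.last m)‖ ^ 2
          + ‖(∑ l, (r l ω : 𝕂) * a l.castSucc) - a (Fin.last m)‖ ^ 2
          = 2 * ‖∑ l, (r l ω : 𝕂) * a l.castSucc‖ ^ 2 + 2 * ‖a (Fin.last m)‖ ^ 2 := by
        intro ω
        have := norm_sq_add_sub (∑ l, (r l ω : 𝕂) * a l.castSucc) (a (Fin.last m))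
        linarith
      rw [Finset.sum_congr rfl (fun ω _ => this ω), Finset.sum_add_distrib, ← Finset.mul_sum, h2,
        Fin.sum_univ_castSucc]
      simp
      ring
    · rw [Fintype.sum_prod_type]
      simp only [Fintype.sum_bool, Fintype.card_prod, Fintype.card_bool, key1, key2]
      have : ∀ ω : Ω, ‖(∑ l, (r l ω : 𝕂) * a l.castSucc) + a (Fin.last m)‖ ^ 4
          + ‖(∑ l, (r l ω : 𝕂) * a l.castSucc) - a (Fin.last m)‖ ^ 4
          ≤ 2 * ‖∑ l, (r l ω : 𝕂) * a l.castSucc‖ ^ 4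
            + 12 * ‖a (Fin.last m)‖ ^ 2 * ‖∑ l, (r l ω : 𝕂) * a l.castSucc‖ ^ 2
            + 2 * ‖a (Fin.last m)‖ ^ 4 := by
        intro ω
        have := norm_four_add_sub (∑ l, (r l ω : 𝕂) * a l.castSucc) (a (Fin.last m))
        linarith
      refine (Finset.sum_le_sum (fun ω _ => this ω)).trans ?_
      rw [Finset.sum_add_distrib, Finset.sum_add_distrib, ← Finset.mul_sum, ← Finset.mul_sum, h2,
        Fin.sum_univ_castSucc]
      simp only [Finset.sum_const, Finset.card_univ, nsmul_eq_mul, Nat.cast_mul, Nat.cast_ofNat]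
      set S := ∑ l : Fin m, ‖a l.castSucc‖ ^ 2
      set q := ‖a (Fin.last m)‖ with hq
      set N : ℝ := (Fintype.card Ω : ℝ)
      have hN : 0 ≤ N := Nat.cast_nonneg _
      have hNq : 0 ≤ N * q ^ 4 := by positivity
      nlinarith [h3, hNq]

/-- truncation at level 4 -/
noncomputable def trunc (z : 𝕂) : 𝕂 := if ‖z‖ ≤ 4 then z else 0

lemma norm_trunc_le (z : 𝕂) : ‖trunc z‖ ≤ 4 := by
  unfold trunc; split_ifs with h
  · exact h
  · simp

lemma norm_trunc_le' (z : 𝕂) : ‖trunc z‖ ≤ ‖z‖ := by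
  unfold trunc; split_ifs with h
  · exact le_rfl
  · simp

lemma norm_sub_trunc (z : 𝕂) : ‖z - trunc z‖ ^ 2 ≤ ‖z‖ ^ 4 / 16 := by
  unfold trunc; split_ifs with h
  · simp; positivity
  · push Not at h
    rw [sub_zero, le_div_iff₀ (by norm_num)]
    have : (16 : ℝ) ≤ ‖z‖ ^ 2 := by nlinarith
    nlinarith [sq_nonneg ‖z‖, this]

/-- induction step data: `G` is a valid constant -/
def Valid {ι κ : Type*} [Fintype ι] [Fintype κ] (b : ι → κ → 𝕂) (G : ℝ) : Prop :=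
  ∀ (Λ : Type) [Fintype Λ] (x : ι → Λ → 𝕂) (y : κ → Λ → 𝕂),
    (∀ i, ∑ l, ‖x i l‖ ^ 2 ≤ 1) → (∀ j, ∑ l, ‖y j l‖ ^ 2 ≤ 1) →
    ‖∑ i, ∑ j, b i j * ∑ l, x i l * y j l‖ ≤ G

lemma valid_base {ι κ : Type*} [Fintype ι] [Fintype κ] (b : ι → κ → 𝕂) :
    Valid b (∑ i, ∑ j, ‖b i j‖) := by
  intro Λ _ x y hx hy
  refine (norm_sum_le _ _).trans (Finset.sum_le_sum fun i _ => ?_)
  refine (norm_sum_le _ _).trans (Finset.sum_le_sum fun j _ => ?_)
  rw [norm_mul]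
  have : ‖∑ l, x i l * y j l‖ ≤ 1 := by
    refine (norm_sum_le _ _).trans ?_
    have h1 : ∀ l, ‖x i l * y j l‖ ≤ (‖x i l‖ ^ 2 + ‖y j l‖ ^ 2) / 2 := by
      intro l
      rw [norm_mul]
      nlinarith [sq_nonneg (‖x i l‖ - ‖y j l‖)]
    refine (Finset.sum_le_sum fun l _ => h1 l).trans ?_
    rw [← Finset.sum_div, Finset.sum_add_distrib]
    linarith [hx i, hy j]
  nlinarith [norm_nonneg (b i j)]

lemma valid_scaled {ι κ : Type*} [Fintype ι] [Fintype κ] (b : ι → κ → 𝕂) {G : ℝ}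
    (hG : Valid b G) (Λ : Type) [Fintype Λ] (x : ι → Λ → 𝕂) (y : κ → Λ → 𝕂) (s t : ℝ)
    (hs : 0 < s) (ht : 0 < t)
    (hx : ∀ i, ∑ l, ‖x i l‖ ^ 2 ≤ s ^ 2) (hy : ∀ j, ∑ l, ‖y j l‖ ^ 2 ≤ t ^ 2) :
    ‖∑ i, ∑ j, b i j * ∑ l, x i l * y j l‖ ≤ s * t * G := by
  have h := hG Λ (fun i l => ((s⁻¹ : ℝ) : 𝕂) * x i l) (fun j l => ((t⁻¹ : ℝ) : 𝕂) * y j l) ?_ ?_
  · have e : ∑ i, ∑ j, b i j * ∑ l, (((s⁻¹ : ℝ) : 𝕂) * x i l) * (((t⁻¹ : ℝ) : 𝕂) * y j l)
        = (((s⁻¹ * t⁻¹ : ℝ)) : 𝕂) * ∑ i, ∑ j, b i j * ∑ l, x i l * y j l := by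
      simp only [Finset.mul_sum]
      refine Finset.sum_congr rfl fun i _ => Finset.sum_congr rfl fun j _ =>
        Finset.sum_congr rfl fun l _ => ?_
      push_cast
      ring
    rw [e, norm_mul, RCLike.norm_ofReal, abs_of_pos (by positivity)] at h
    have : ‖∑ i, ∑ j, b i j * ∑ l, x i l * y j l‖
        = s * t * (s⁻¹ * t⁻¹ * ‖∑ i, ∑ j, b i j * ∑ l, x i l * y j l‖) := by
      field_simp
    rw [this]
    gcongr
  · intro i
    simp only [norm_mul, RCLike.norm_ofReal, mul_pow, ← Finset.mul_sum]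
    rw [abs_of_pos (by positivity), inv_pow, inv_mul_le_iff₀ (by positivity), mul_one]
    exact hx i
  · intro j
    simp only [norm_mul, RCLike.norm_ofReal, mul_pow, ← Finset.mul_sum]
    rw [abs_of_pos (by positivity), inv_pow, inv_mul_le_iff₀ (by positivity), mul_one]
    exact hy j

lemma valid_step {ι κ : Type*} [Fintype ι] [Fintype κ] (b : ι → κ → 𝕂) (C G : ℝ)
    (hb : ∀ (s : ι → 𝕂) (t : κ → 𝕂), (∀ i, ‖s i‖ ≤ 1) → (∀ j, ‖t j‖ ≤ 1) →
      ‖∑ i, ∑ j, b i j * (s i * t j)‖ ≤ C)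
    (hG : Valid b G) : Valid b (16 * C + 7 / 8 * G) := by
  intro Λ _ x y hx hy
  obtain ⟨Ω, hΩ, hne, r, hr⟩ := exists_rademacher (𝕂 := 𝕂) (Fintype.card Λ)
  let e : Fin (Fintype.card Λ) ≃ Λ := (Fintype.equivFin Λ).symm
  have hcard : (0 : ℝ) < (Fintype.card Ω : ℝ) := by exact_mod_cast Fintype.card_pos
  have hcard' : ((Fintype.card Ω : ℕ) : 𝕂) ≠ 0 := by
    exact_mod_cast Fintype.card_ne_zero
  -- random sums
  set X : ι → Ω → 𝕂 := fun i ω => ∑ l, (r l ω : 𝕂) * x i (e l) with hX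
  set Y : κ → Ω → 𝕂 := fun j ω => ∑ l, (r l ω : 𝕂) * y j (e l) with hY
  have hXY : ∀ i j, ∑ ω, X i ω * Y j ω = (Fintype.card Ω : 𝕂) * ∑ l, x i l * y j l := by
    intro i j
    rw [← Equiv.sum_comp e (fun l => x i l * y j l)]
    exact (hr (fun l => x i (e l)) (fun l => y j (e l))).1
  have hX2 : ∀ i, ∑ ω, ‖X i ω‖ ^ 2 ≤ (Fintype.card Ω : ℝ) := by
    intro i
    rw [hX, (hr (fun l => x i (e l)) (fun l => x i (e l))).2.1,
      Equiv.sum_comp e (fun l => ‖x i l‖ ^ 2)]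
    nlinarith [hx i]
  have hX4 : ∀ i, ∑ ω, ‖X i ω‖ ^ 4 ≤ 3 * (Fintype.card Ω : ℝ) := by
    intro i
    refine ((hr (fun l => x i (e l)) (fun l => x i (e l))).2.2).trans ?_
    rw [Equiv.sum_comp e (fun l => ‖x i l‖ ^ 2)]
    have h1 := hx i
    have h0 : 0 ≤ ∑ l, ‖x i l‖ ^ 2 := Finset.sum_nonneg fun l _ => by positivity
    have : (∑ l, ‖x i l‖ ^ 2) ^ 2 ≤ 1 := by nlinarith
    nlinarith
  have hY2 : ∀ j, ∑ ω, ‖Y j ω‖ ^ 2 ≤ (Fintype.card Ω : ℝ) := by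
    intro j
    rw [hY, (hr (fun l => y j (e l)) (fun l => y j (e l))).2.1,
      Equiv.sum_comp e (fun l => ‖y j l‖ ^ 2)]
    nlinarith [hy j]
  have hY4 : ∀ j, ∑ ω, ‖Y j ω‖ ^ 4 ≤ 3 * (Fintype.card Ω : ℝ) := by
    intro j
    refine ((hr (fun l => y j (e l)) (fun l => y j (e l))).2.2).trans ?_
    rw [Equiv.sum_comp e (fun l => ‖y j l‖ ^ 2)]
    have h1 := hy j
    have h0 : 0 ≤ ∑ l, ‖y j l‖ ^ 2 := Finset.sum_nonneg fun l _ => by positivity
    have : (∑ l, ‖y j l‖ ^ 2) ^ 2 ≤ 1 := by nlinarith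
    nlinarith
  -- the three pieces
  set D : 𝕂 := (Fintype.card Ω : 𝕂) with hD
  have hsplit : D * ∑ i, ∑ j, b i j * ∑ l, x i l * y j l
      = (∑ ω, ∑ i, ∑ j, b i j * (trunc (X i ω) * trunc (Y j ω)))
        + (∑ i, ∑ j, b i j * ∑ ω, (X i ω - trunc (X i ω)) * trunc (Y j ω))
        + (∑ i, ∑ j, b i j * ∑ ω, X i ω * (Y j ω - trunc (Y j ω))) := by
    have e1 : (∑ ω, ∑ i, ∑ j, b i j * (trunc (X i ω) * trunc (Y j ω)))
        = ∑ i, ∑ j, b i j * ∑ ω, trunc (X i ω) * trunc (Y j ω) := by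
      rw [Finset.sum_comm]
      refine Finset.sum_congr rfl fun i _ => ?_
      rw [Finset.sum_comm]
      refine Finset.sum_congr rfl fun j _ => ?_
      rw [Finset.mul_sum]
    rw [e1, ← Finset.sum_add_distrib, ← Finset.sum_add_distrib, Finset.mul_sum]
    refine Finset.sum_congr rfl fun i _ => ?_
    rw [← Finset.sum_add_distrib, ← Finset.sum_add_distrib, Finset.mul_sum]
    refine Finset.sum_congr rfl fun j _ => ?_
    rw [← mul_add, ← mul_add, mul_left_comm, ← hXY, ← Finset.sum_add_distrib,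
      ← Finset.sum_add_distrib]
    congr 1
    refine Finset.sum_congr rfl fun ω _ => ?_
    ring
  -- bound piece 1
  have p1 : ‖∑ ω, ∑ i, ∑ j, b i j * (trunc (X i ω) * trunc (Y j ω))‖
      ≤ (Fintype.card Ω : ℝ) * (16 * C) := by
    refine (norm_sum_le _ _).trans ?_
    rw [← nsmul_eq_mul, ← Finset.card_univ, ← Finset.sum_const]
    refine Finset.sum_le_sum fun ω _ => ?_
    have h := hb (fun i => ((4⁻¹ : ℝ) : 𝕂) * trunc (X i ω)) (fun j => ((4⁻¹ : ℝ) : 𝕂) * trunc (Y j ω))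
      ?_ ?_
    · have e2 : ∑ i, ∑ j, b i j * (trunc (X i ω) * trunc (Y j ω))
          = ((16 : ℝ) : 𝕂) * ∑ i, ∑ j, b i j * ((((4⁻¹ : ℝ) : 𝕂) * trunc (X i ω)) *
            (((4⁻¹ : ℝ) : 𝕂) * trunc (Y j ω))) := by
        simp only [Finset.mul_sum]
        refine Finset.sum_congr rfl fun i _ => Finset.sum_congr rfl fun j _ => ?_
        push_cast
        ring
      rw [e2, norm_mul, RCLike.norm_ofReal, abs_of_pos (by norm_num)]
      gcongr
    · intro i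
      rw [norm_mul, RCLike.norm_ofReal, abs_of_pos (by norm_num)]
      have := norm_trunc_le (X i ω)
      linarith
    · intro j
      rw [norm_mul, RCLike.norm_ofReal, abs_of_pos (by norm_num)]
      have := norm_trunc_le (Y j ω)
      linarith
  have hsq : 0 < Real.sqrt (Fintype.card Ω : ℝ) := Real.sqrt_pos.mpr hcard
  have hsq2 : Real.sqrt (Fintype.card Ω : ℝ) ^ 2 = (Fintype.card Ω : ℝ) := Real.sq_sqrt hcard.le
  have hG0 : (7 : ℝ) / 16 * Real.sqrt (Fintype.card Ω : ℝ) * Real.sqrt (Fintype.card Ω : ℝ) * G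
      = (Fintype.card Ω : ℝ) * (7 / 16 * G) := by
    rw [mul_assoc (7/16 : ℝ), ← sq, hsq2]; ring
  have p2 : ‖∑ i, ∑ j, b i j * ∑ ω, (X i ω - trunc (X i ω)) * trunc (Y j ω)‖
      ≤ (Fintype.card Ω : ℝ) * (7 / 16 * G) := by
    rw [← hG0]
    refine valid_scaled b hG Ω (fun i ω => X i ω - trunc (X i ω)) (fun j ω => trunc (Y j ω))
      (7 / 16 * Real.sqrt (Fintype.card Ω : ℝ)) (Real.sqrt (Fintype.card Ω : ℝ))
      (by positivity) hsq ?_ ?_
    · intro i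
      rw [mul_pow, hsq2]
      refine (Finset.sum_le_sum fun ω _ => norm_sub_trunc (X i ω)).trans ?_
      rw [← Finset.sum_div]
      have := hX4 i
      nlinarith
    · intro j
      rw [hsq2]
      refine (Finset.sum_le_sum fun ω _ => ?_).trans (hY2 j)
      exact pow_le_pow_left₀ (norm_nonneg _) (norm_trunc_le' _) 2
  have p3 : ‖∑ i, ∑ j, b i j * ∑ ω, X i ω * (Y j ω - trunc (Y j ω))‖
      ≤ (Fintype.card Ω : ℝ) * (7 / 16 * G) := by
    have hG1 : Real.sqrt (Fintype.card Ω : ℝ) * ((7 : ℝ) / 16 * Real.sqrt (Fintype.card Ω : ℝ)) * G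
      = (Fintype.card Ω : ℝ) * (7 / 16 * G) := by
      rw [← hG0]; ring
    rw [← hG1]
    refine valid_scaled b hG Ω (fun i ω => X i ω) (fun j ω => Y j ω - trunc (Y j ω))
      (Real.sqrt (Fintype.card Ω : ℝ)) (7 / 16 * Real.sqrt (Fintype.card Ω : ℝ))
      hsq (by positivity) ?_ ?_
    · intro i
      rw [hsq2]
      exact hX2 i
    · intro j
      rw [mul_pow, hsq2]
      refine (Finset.sum_le_sum fun ω _ => norm_sub_trunc (Y j ω)).trans ?_
      rw [← Finset.sum_div]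
      have := hY4 j
      nlinarith
  have hfin : (Fintype.card Ω : ℝ) * ‖∑ i, ∑ j, b i j * ∑ l, x i l * y j l‖
      ≤ (Fintype.card Ω : ℝ) * (16 * C + 7 / 8 * G) := by
    have hn : ‖D‖ = (Fintype.card Ω : ℝ) := by
      rw [hD, RCLike.norm_natCast]
    rw [← hn, ← norm_mul, hsplit, hn]
    refine (norm_add_le _ _).trans ?_
    refine (add_le_add_left (norm_add_le _ _) _).trans ?_
    linarith
  exact le_of_mul_le_mul_left hfin hcard

/-- **Grothendieck's inequality** with constant 128, in coordinates. -/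
theorem grothendieck {ι κ : Type*} [Fintype ι] [Fintype κ] (b : ι → κ → 𝕂) (C : ℝ)
    (hb : ∀ (s : ι → 𝕂) (t : κ → 𝕂), (∀ i, ‖s i‖ ≤ 1) → (∀ j, ‖t j‖ ≤ 1) →
      ‖∑ i, ∑ j, b i j * (s i * t j)‖ ≤ C) : Valid b (128 * C) := by
  have hC : 0 ≤ C := by
    refine le_trans (norm_nonneg _) (hb 0 0 ?_ ?_) <;> simp
  set S := ∑ i, ∑ j, ‖b i j‖ with hS
  have hind : ∀ n : ℕ, Valid b (128 * C + (7 / 8) ^ n * S) := by
    intro n
    induction n with
    | zero =>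
      intro Λ _ x y hx hy
      have := valid_base b Λ x y hx hy
      simp only [pow_zero, one_mul]
      linarith
    | succ n ih =>
      intro Λ _ x y hx hy
      have := valid_step b C _ hb ih Λ x y hx hy
      refine this.trans (le_of_eq ?_)
      rw [pow_succ]
      ring
  intro Λ _ x y hx hy
  have hlim : Filter.Tendsto (fun n : ℕ => 128 * C + (7 / 8 : ℝ) ^ n * S) Filter.atTop
      (nhds (128 * C + 0 * S)) := by
    refine Filter.Tendsto.add tendsto_const_nhds (Filter.Tendsto.mul_const _ ?_)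
    exact tendsto_pow_atTop_nhds_zero_of_lt_one (by norm_num) (by norm_num)
  rw [zero_mul, add_zero] at hlim
  exact ge_of_tendsto' hlim (fun n => hind n Λ x y hx hy)

end Pool.Agent.Helper36.Grothendieck
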