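import Mathlib
import Pool.Agent.Helper36.Grothendieck
import Pool.Agent.Helper36.DiscreteL1
import Pool.Agent.Helper36.DiscreteLinf

set_option autoImplicit false
set_option maxSynthPendingDepth 3

namespace Pool.Agent.Helper36.TraceBound

open MeasureTheory Finset
open scoped ENNReal
open NormedSpace (inclusionInDoubleDual)

variable {𝕂 : Type} [RCLike 𝕂]

lemma norm_sum_onb {H : Type*} [NormedAddCommGroup H] [InnerProductSpace 𝕂 H]
    {H₀ : Submodule 𝕂 H} {r : ℕ} (e : OrthonormalBasis (Fin r) 𝕂 H₀) (a : Fin r → 𝕂) :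
    ‖∑ l, a l • ((e l : H₀) : H)‖ = Real.sqrt (∑ l, ‖a l‖ ^ 2) := by
  have h1 : (∑ l, a l • ((e l : H₀) : H)) = ((∑ l, a l • e l : H₀) : H) := by
    push_cast
    rfl
  rw [h1, ← Submodule.coe_norm]
  have h2 : (∑ l, a l • e l) = e.repr.symm (WithLp.toLp 2 a) := by
    rw [← e.sum_repr_symm]
  rw [h2, LinearIsometryEquiv.norm_map, EuclideanSpace.norm_eq]

/-- dual form of Cauchy-Schwarz -/
lemma sum_sq_le_of_dual {r : ℕ} (y : Fin r → 𝕂) {τ : ℝ} (hτ : 0 ≤ τ)
    (h : ∀ a : Fin r → 𝕂, ‖∑ l, a l * y l‖ ≤ τ * Real.sqrt (∑ l, ‖a l‖ ^ 2)) :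
    ∑ l, ‖y l‖ ^ 2 ≤ τ ^ 2 := by
  have h4 := h (fun l => star (y l))
  have h5 : ∑ l, star (y l) * y l = ((∑ l, ‖y l‖ ^ 2 : ℝ) : 𝕂) := by
    push_cast
    refine Finset.sum_congr rfl fun l _ => ?_
    exact RCLike.conj_mul _
  have hnn : 0 ≤ ∑ l, ‖y l‖ ^ 2 := Finset.sum_nonneg fun l _ => by positivity
  rw [h5, RCLike.norm_ofReal, abs_of_nonneg hnn] at h4
  simp only [norm_star] at h4
  set q := Real.sqrt (∑ l, ‖y l‖ ^ 2) with hq
  have hq2 : q ^ 2 = ∑ l, ‖y l‖ ^ 2 := Real.sq_sqrt hnn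
  have hq0 : 0 ≤ q := Real.sqrt_nonneg _
  rw [← hq2] at h4 ⊢
  by_contra hcon
  push Not at hcon
  have h6 : τ < q := lt_of_pow_lt_pow_left₀ 2 hq0 hcon
  have h7 : 0 < q := lt_of_le_of_lt hτ h6
  nlinarith

theorem trace_bound {F M Z H : Type*} [NormedAddCommGroup F] [NormedSpace 𝕂 F]
    [FiniteDimensional 𝕂 F] [NormedAddCommGroup M] [NormedSpace 𝕂 M] [FiniteDimensional 𝕂 M]
    [NormedAddCommGroup Z] [NormedSpace 𝕂 Z]
    [NormedAddCommGroup H] [InnerProductSpace 𝕂 H]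
    (c : M →L[𝕂] H) (d : H →L[𝕂] F) (V₂ : F →L[𝕂] Z) (V₁ : Z →L[𝕂] M)
    {T₂ T₁ : Type*} [MeasurableSpace T₂] [MeasurableSpace T₁] (μ : Measure T₂) (ν : Measure T₁)
    (S₂ : F →L[𝕂] Lp 𝕂 ∞ μ) (R₂ : Lp 𝕂 ∞ μ →L[𝕂] StrongDual 𝕂 (StrongDual 𝕂 Z))
    (h₂ : (inclusionInDoubleDual 𝕂 Z).comp V₂ = R₂.comp S₂)
    (S₁ : Z →L[𝕂] Lp 𝕂 1 ν) (R₁ : Lp 𝕂 1 ν →L[𝕂] StrongDual 𝕂 (StrongDual 𝕂 M))
    (h₁ : (inclusionInDoubleDual 𝕂 M).comp V₁ = R₁.comp S₁) :
    ‖LinearMap.trace 𝕂 F ((d.comp c).comp (V₁.comp V₂)).toLinearMap‖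
      ≤ 128 * ((‖R₂‖ * ‖S₁‖) * ((‖S₂‖ * ‖d‖) * (‖R₁‖ * ‖c‖))) := by
  classical
  set H₀ : Submodule 𝕂 H := LinearMap.range c.toLinearMap with hH₀
  have instH₀ : FiniteDimensional 𝕂 H₀ := inferInstance
  set r := Module.finrank 𝕂 H₀ with hr
  let e : OrthonormalBasis (Fin r) 𝕂 H₀ := stdOrthonormalBasis 𝕂 H₀
  -- functionals on M
  let η : Fin r → StrongDual 𝕂 M := fun l => (innerSL 𝕂 ((e l : H₀) : H)).comp c
  have hη : ∀ l m, η l m = inner 𝕂 ((e l : H₀) : H) (c m) := fun l m => rfl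
  have hηsum : ∀ a : Fin r → 𝕂, ‖∑ l, a l • η l‖ ≤ ‖c‖ * Real.sqrt (∑ l, ‖a l‖ ^ 2) := by
    intro a
    refine ContinuousLinearMap.opNorm_le_bound _ (by positivity) fun m => ?_
    have h1 : (∑ l, a l • η l) m = inner 𝕂 (∑ l, star (a l) • ((e l : H₀) : H)) (c m) := by
      rw [sum_inner]
      simp only [_root_.sum_apply, _root_.smul_apply, hη,
        inner_smul_left, smul_eq_mul, RCLike.star_def, RCLike.conj_conj]
    rw [h1]
    refine (norm_inner_le_norm _ _).trans ?_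
    rw [norm_sum_onb]
    simp only [norm_star]
    have := c.le_opNorm m
    nlinarith [Real.sqrt_nonneg (∑ l, ‖a l‖ ^ 2)]
  have hη1 : ∀ l, ‖η l‖ ≤ ‖c‖ := by
    intro l
    have := hηsum (Pi.single l 1)
    have h1 : ∑ k, (Pi.single l (1 : 𝕂) : Fin r → 𝕂) k • η k = η l := by
      rw [Finset.sum_eq_single l]
      · simp
      · intro k _ hk; simp [Pi.single_eq_of_ne hk]
      · simp
    have h2 : ∑ k, ‖(Pi.single l (1 : 𝕂) : Fin r → 𝕂) k‖ ^ 2 = 1 := by
      rw [Finset.sum_eq_single l]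
      · simp
      · intro k _ hk; simp [Pi.single_eq_of_ne hk]
      · simp
    rw [h1, h2] at this
    simpa using this
  -- the elements of L¹ and L∞
  let g : Fin r → Lp 𝕂 1 ν := fun l => S₁ (V₂ (d ((e l : H₀) : H)))
  let f : Fin r → Lp 𝕂 ∞ μ := fun l => S₂ (d ((e l : H₀) : H))
  set ρ := ‖S₂‖ * ‖d‖ with hρ
  have hρ0 : 0 ≤ ρ := by positivity
  set τ := ‖R₁‖ * ‖c‖ with hτ
  have hτ0 : 0 ≤ τ := by positivity
  have hf : ∀ a : Fin r → 𝕂, ‖∑ l, a l • f l‖ ≤ ρ * Real.sqrt (∑ l, ‖a l‖ ^ 2) := by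
    intro a
    have h1 : ∑ l, a l • f l = S₂ (d (∑ l, a l • ((e l : H₀) : H))) := by
      simp only [map_sum, map_smul, f]
    rw [h1, ← norm_sum_onb e a, hρ, mul_assoc]
    refine (S₂.le_opNorm _).trans ?_
    gcongr
    exact d.le_opNorm _
  -- the trace as a sum
  have htr : LinearMap.trace 𝕂 F ((d.comp c).comp (V₁.comp V₂)).toLinearMap
      = ∑ l, (R₁ (g l)) (η l) := by
    let c₀ : M →ₗ[𝕂] H₀ := c.toLinearMap.rangeRestrict
    let d₀ : H₀ →ₗ[𝕂] F := d.toLinearMap.comp H₀.subtype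
    have e1 : ((d.comp c).comp (V₁.comp V₂)).toLinearMap
        = d₀ ∘ₗ (c₀ ∘ₗ (V₁.toLinearMap ∘ₗ V₂.toLinearMap)) := by
      ext x; rfl
    rw [e1, LinearMap.trace_comp_comm', LinearMap.trace_eq_sum_inner _ e]
    refine Finset.sum_congr rfl fun l _ => ?_
    have e2 : (R₁ (g l)) (η l) = η l (V₁ (V₂ (d ((e l : H₀) : H)))) := by
      have := DFunLike.congr_fun h₁ (V₂ (d ((e l : H₀) : H)))
      have h3 := DFunLike.congr_fun this (η l)
      exact h3.symm
    rw [e2, hη]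
    rfl
  -- main estimate for every ε
  have hmain : ∀ ε : ℝ, 0 < ε →
      ‖LinearMap.trace 𝕂 F ((d.comp c).comp (V₁.comp V₂)).toLinearMap‖
        ≤ 128 * ((‖R₂‖ * ‖S₁‖) * ((ρ + ε) * (τ + ε)))
          + (r : ℝ) * (τ + (‖R₂‖ * ‖S₁‖) * τ) * ε := by
    intro ε hε
    obtain ⟨κ, hκ, P, u, hu, hP, hg⟩ := DiscreteL1.discretize_L1 ν r g ε hε
    have hP1 : ∀ j, ‖P j‖ ≤ 1 := by
      intro j
      refine ContinuousLinearMap.opNorm_le_bound _ zero_le_one fun h => ?_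
      rw [one_mul]
      refine le_trans ?_ (hP h)
      exact Finset.single_le_sum (f := fun j => ‖P j h‖) (fun j _ => norm_nonneg _)
        (Finset.mem_univ j)
    set ε' := ε / ((Fintype.card κ : ℝ) + 1) with hε'
    have hcard0 : (0 : ℝ) ≤ (Fintype.card κ : ℝ) := Nat.cast_nonneg _
    have hε'0 : 0 < ε' := by positivity
    obtain ⟨ι, hι, x, Θ, hΘ, hx, hfΘ⟩ := DiscreteLinf.discretize_Linf μ r f ρ hρ0 hf ε' hε'0
    let z' : κ → StrongDual 𝕂 Z := fun j => (P j).comp S₁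
    have hz'sum : ∀ t : κ → 𝕂, (∀ j, ‖t j‖ ≤ 1) → ‖∑ j, t j • z' j‖ ≤ ‖S₁‖ := by
      intro t ht
      refine ContinuousLinearMap.opNorm_le_bound _ (by positivity) fun z => ?_
      rw [_root_.sum_apply]
      refine (norm_sum_le _ _).trans ?_
      refine le_trans ?_ ((hP (S₁ z)).trans (S₁.le_opNorm z))
      refine Finset.sum_le_sum fun j _ => ?_
      rw [_root_.smul_apply, norm_smul]
      exact mul_le_of_le_one_left (norm_nonneg _) (ht j)
    have hz'1 : ∀ j, ‖z' j‖ ≤ ‖S₁‖ := by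
      intro j
      refine (ContinuousLinearMap.opNorm_comp_le _ _).trans ?_
      exact mul_le_of_le_one_left (norm_nonneg _) (hP1 j)
    let b : ι → κ → 𝕂 := fun i j => (R₂ (Θ (Pi.single i 1))) (z' j)
    have hbsum : ∀ (s : ι → 𝕂) (j : κ), (R₂ (Θ s)) (z' j) = ∑ i, s i * b i j := by
      intro s j
      have h1 : s = ∑ i, s i • (Pi.single i (1 : 𝕂) : ι → 𝕂) := by
        ext k
        simp [Finset.sum_apply, Pi.single_apply]
      conv_lhs => rw [h1]
      simp only [map_sum, map_smul, _root_.sum_apply, _root_.smul_apply,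
        smul_eq_mul, b]
    have hb : ∀ (s : ι → 𝕂) (t : κ → 𝕂), (∀ i, ‖s i‖ ≤ 1) → (∀ j, ‖t j‖ ≤ 1) →
        ‖∑ i, ∑ j, b i j * (s i * t j)‖ ≤ ‖R₂‖ * ‖S₁‖ := by
      intro s t hs ht
      have h1 : ∑ i, ∑ j, b i j * (s i * t j) = (R₂ (Θ s)) (∑ j, t j • z' j) := by
        rw [Finset.sum_comm, map_sum]
        refine Finset.sum_congr rfl fun j _ => ?_
        rw [map_smul, hbsum, smul_eq_mul, Finset.mul_sum]
        refine Finset.sum_congr rfl fun i _ => ?_
        ring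
      rw [h1]
      refine (ContinuousLinearMap.le_opNorm _ _).trans ?_
      have h2 : ‖R₂ (Θ s)‖ ≤ ‖R₂‖ := by
        refine (R₂.le_opNorm _).trans ?_
        exact mul_le_of_le_one_right (norm_nonneg _) (hΘ s hs)
      exact mul_le_mul h2 (hz'sum t ht) (norm_nonneg _) (norm_nonneg _)
    have hvalid := Grothendieck.grothendieck b (‖R₂‖ * ‖S₁‖) hb
    let y : κ → Fin r → 𝕂 := fun j l => (R₁ (u j)) (η l)
    have hy : ∀ j, ∑ l, ‖y j l‖ ^ 2 ≤ τ ^ 2 := by
      intro j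
      refine sum_sq_le_of_dual (y j) hτ0 fun a => ?_
      have h1 : ∑ l, a l * y j l = (R₁ (u j)) (∑ l, a l • η l) := by
        simp only [map_sum, map_smul, smul_eq_mul, y]
      rw [h1]
      refine (ContinuousLinearMap.le_opNorm _ _).trans ?_
      have h2 : ‖R₁ (u j)‖ ≤ ‖R₁‖ := by
        refine (R₁.le_opNorm _).trans ?_
        exact mul_le_of_le_one_right (norm_nonneg _) (hu j)
      rw [hτ, mul_assoc]
      exact mul_le_mul h2 (hηsum a) (norm_nonneg _) (norm_nonneg _)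
    -- Grothendieck
    have hG : ‖∑ i, ∑ j, b i j * ∑ l, x i l * y j l‖
        ≤ (ρ + ε) * (τ + ε) * (128 * (‖R₂‖ * ‖S₁‖)) := by
      refine Grothendieck.valid_scaled b hvalid (Fin r) x y (ρ + ε) (τ + ε) (by positivity)
        (by positivity) (fun i => (hx i).trans ?_) (fun j => (hy j).trans ?_)
      · gcongr; linarith
      · gcongr; linarith
    -- approximation
    have hyb : ∀ j l, ‖y j l‖ ≤ τ := by
      intro j l
      refine (ContinuousLinearMap.le_opNorm _ _).trans ?_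
      have h2 : ‖R₁ (u j)‖ ≤ ‖R₁‖ := by
        refine (R₁.le_opNorm _).trans ?_
        exact mul_le_of_le_one_right (norm_nonneg _) (hu j)
      exact mul_le_mul h2 (hη1 l) (norm_nonneg _) (norm_nonneg _)
    have hPg : ∀ j l, P j (g l) = (R₂ (f l)) (z' j) := by
      intro j l
      have := DFunLike.congr_fun h₂ (d ((e l : H₀) : H))
      have h3 := DFunLike.congr_fun this (z' j)
      exact h3
    have happ : ∀ l, ‖(R₁ (g l)) (η l) - ∑ i, ∑ j, b i j * (x i l * y j l)‖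
        ≤ τ * ε + (‖R₂‖ * ‖S₁‖) * τ * ε := by
      intro l
      have s1 : (∑ j, P j (g l) * y j l) = (R₁ (∑ j, P j (g l) • u j)) (η l) := by
        simp only [map_sum, map_smul, _root_.sum_apply,
          _root_.smul_apply, smul_eq_mul, y]
      have s2 : (∑ i, ∑ j, b i j * (x i l * y j l))
          = ∑ j, (R₂ (Θ (fun i => x i l))) (z' j) * y j l := by
        rw [Finset.sum_comm]
        refine Finset.sum_congr rfl fun j _ => ?_
        rw [hbsum, Finset.sum_mul]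
        refine Finset.sum_congr rfl fun i _ => ?_
        ring
      have b1 : ‖(R₁ (g l)) (η l) - ∑ j, P j (g l) * y j l‖ ≤ τ * ε := by
        have h4 : (R₁ (g l)) (η l) - ∑ j, P j (g l) * y j l
            = (R₁ (g l - ∑ j, P j (g l) • u j)) (η l) := by
          rw [s1, map_sub, _root_.sub_apply]
        rw [h4]
        refine (ContinuousLinearMap.le_opNorm _ _).trans ?_
        have h2 : ‖R₁ (g l - ∑ j, P j (g l) • u j)‖ ≤ ‖R₁‖ * ε := by
          refine (R₁.le_opNorm _).trans ?_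
          gcongr
          exact hg l
        calc ‖R₁ (g l - ∑ j, P j (g l) • u j)‖ * ‖η l‖ ≤ (‖R₁‖ * ε) * ‖c‖ :=
              mul_le_mul h2 (hη1 l) (norm_nonneg _) (by positivity)
          _ = τ * ε := by rw [hτ]; ring
      have b2 : ‖∑ j, P j (g l) * y j l - ∑ i, ∑ j, b i j * (x i l * y j l)‖
          ≤ (‖R₂‖ * ‖S₁‖) * τ * ε := by
        rw [s2, ← Finset.sum_sub_distrib]
        refine (norm_sum_le _ _).trans ?_
        have h5 : ∀ j, ‖P j (g l) * y j l - (R₂ (Θ (fun i => x i l))) (z' j) * y j l‖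
            ≤ (‖R₂‖ * ‖S₁‖) * τ * ε' := by
          intro j
          have h6 : P j (g l) * y j l - (R₂ (Θ (fun i => x i l))) (z' j) * y j l
              = (R₂ (f l - Θ (fun i => x i l))) (z' j) * y j l := by
            rw [hPg, map_sub, _root_.sub_apply]
            ring
          rw [h6, norm_mul]
          have h7 : ‖(R₂ (f l - Θ (fun i => x i l))) (z' j)‖ ≤ (‖R₂‖ * ε') * ‖S₁‖ := by
            refine (ContinuousLinearMap.le_opNorm _ _).trans ?_
            refine mul_le_mul ?_ (hz'1 j) (norm_nonneg _) (by positivity)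
            refine (R₂.le_opNorm _).trans ?_
            gcongr
            exact hfΘ l
          calc ‖(R₂ (f l - Θ (fun i => x i l))) (z' j)‖ * ‖y j l‖
              ≤ ((‖R₂‖ * ε') * ‖S₁‖) * τ :=
                mul_le_mul h7 (hyb j l) (norm_nonneg _) (by positivity)
            _ = (‖R₂‖ * ‖S₁‖) * τ * ε' := by ring
        refine (Finset.sum_le_sum fun j _ => h5 j).trans ?_
        rw [Finset.sum_const, Finset.card_univ, nsmul_eq_mul]
        have h8 : (Fintype.card κ : ℝ) * ε' ≤ ε := by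
          rw [hε', mul_div_assoc', div_le_iff₀ (by positivity)]
          nlinarith
        calc (Fintype.card κ : ℝ) * ((‖R₂‖ * ‖S₁‖) * τ * ε')
            = ((‖R₂‖ * ‖S₁‖) * τ) * ((Fintype.card κ : ℝ) * ε') := by ring
          _ ≤ ((‖R₂‖ * ‖S₁‖) * τ) * ε := by gcongr
      calc ‖(R₁ (g l)) (η l) - ∑ i, ∑ j, b i j * (x i l * y j l)‖
          = ‖((R₁ (g l)) (η l) - ∑ j, P j (g l) * y j l)
            + (∑ j, P j (g l) * y j l - ∑ i, ∑ j, b i j * (x i l * y j l))‖ := by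
              congr 1; ring
        _ ≤ _ := (norm_add_le _ _).trans (add_le_add b1 b2)
    have hsum : ∑ i, ∑ j, b i j * ∑ l, x i l * y j l
        = ∑ l, ∑ i, ∑ j, b i j * (x i l * y j l) := by
      simp only [Finset.mul_sum]
      rw [Finset.sum_congr rfl (fun i _ => Finset.sum_comm), Finset.sum_comm]
    rw [htr]
    calc ‖∑ l, (R₁ (g l)) (η l)‖
        = ‖∑ i, ∑ j, b i j * ∑ l, x i l * y j l
          + ∑ l, ((R₁ (g l)) (η l) - ∑ i, ∑ j, b i j * (x i l * y j l))‖ := by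
            congr 1
            rw [hsum, ← Finset.sum_add_distrib]
            refine Finset.sum_congr rfl fun l _ => ?_
            ring
      _ ≤ ‖∑ i, ∑ j, b i j * ∑ l, x i l * y j l‖
          + ∑ l : Fin r, (τ * ε + (‖R₂‖ * ‖S₁‖) * τ * ε) := by
            refine (norm_add_le _ _).trans ?_
            gcongr
            refine (norm_sum_le _ _).trans ?_
            exact Finset.sum_le_sum fun l _ => happ l
      _ ≤ _ := by
            rw [Finset.sum_const, Finset.card_univ, nsmul_eq_mul, Fintype.card_fin]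
            refine add_le_add (hG.trans (le_of_eq (by ring))) (le_of_eq (by ring))
  -- let ε → 0
  have hlim : Filter.Tendsto (fun ε : ℝ => 128 * ((‖R₂‖ * ‖S₁‖) * ((ρ + ε) * (τ + ε)))
          + (r : ℝ) * (τ + (‖R₂‖ * ‖S₁‖) * τ) * ε) (nhdsWithin 0 (Set.Ioi 0))
      (nhds (128 * ((‖R₂‖ * ‖S₁‖) * ((ρ + 0) * (τ + 0)))
          + (r : ℝ) * (τ + (‖R₂‖ * ‖S₁‖) * τ) * 0)) := by
    have hc : Continuous (fun ε : ℝ => 128 * ((‖R₂‖ * ‖S₁‖) * ((ρ + ε) * (τ + ε)))
          + (r : ℝ) * (τ + (‖R₂‖ * ‖S₁‖) * τ) * ε) := by fun_prop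
    exact (hc.tendsto 0).mono_left nhdsWithin_le_nhds
  have := ge_of_tendsto hlim (Filter.eventually_of_mem self_mem_nhdsWithin
    (fun ε hε => hmain ε hε))
  simpa using this

end Pool.Agent.Helper36.TraceBound
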